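import Pool.Agent.H101.HB.Stm

/-! # Project HB of helper101, piece `S_PL`, part A: short Moebius sums as a measurable kernel, Tonelli -/

set_option autoImplicit false

open Complex MeasureTheory Filter Topology Set

namespace Pool.Agent.H675.HB

open Pool.Agent.H101.HB

/-- one term of the short sum -/
noncomputable def tm (T u : ℝ) (n : ℕ) (X : ℝ) : ℝ :=
  if |(n : ℝ) - u * X| < X / T / 2 then mu n else 0

/-- the short sum -/
noncomputable def E (T u X : ℝ) : ℝ := M (u * X) (X / T)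

theorem mu_zero : mu 0 = 0 := by simp [mu]

theorem abs_mu_le (n : ℕ) : |mu n| ≤ 1 := by
  unfold mu
  have h := ArithmeticFunction.abs_moebius_le_one (n := n)
  rw [← Int.cast_abs]
  exact_mod_cast h

theorem E_eq (T u X : ℝ) (N : ℕ) (hN : ⌈u * X + X / T⌉₊ + 1 ≤ N) :
    E T u X = ∑ n ∈ Finset.range N, tm T u n X := by
  unfold E M tm
  rw [Finset.sum_filter]
  have h0 : ∀ n ∈ Finset.range N, n ∉ Finset.range (⌈u * X + X / T⌉₊ + 1) →
      (if |(n : ℝ) - u * X| < X / T / 2 then mu n else 0) = 0 := by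
    intro n _ hn
    rw [Finset.mem_range, not_lt] at hn
    have h1 : (⌈u * X + X / T⌉₊ : ℝ) + 1 ≤ n := by exact_mod_cast hn
    have h2 := Nat.le_ceil (u * X + X / T)
    refine if_neg ?_
    intro h3
    have h4 := abs_nonneg ((n : ℝ) - u * X)
    have h5 := le_abs_self ((n : ℝ) - u * X)
    linarith
  exact Finset.sum_subset (Finset.range_mono hN) h0

theorem tm_measurable (T : ℝ) (n : ℕ) : Measurable (fun p : ℝ × ℝ => tm T p.1 n p.2) := by
  unfold tm
  refine Measurable.ite ?_ measurable_const measurable_const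
  apply measurableSet_lt <;> fun_prop

theorem E_measurable (T : ℝ) : Measurable (fun p : ℝ × ℝ => E T p.1 p.2) := by
  refine measurable_of_tendsto_metrizable (f := fun N : ℕ => fun p : ℝ × ℝ =>
    ∑ n ∈ Finset.range N, tm T p.1 n p.2) ?_ ?_
  · intro N
    exact Finset.measurable_fun_sum _ fun n _ => tm_measurable T n
  · rw [tendsto_pi_nhds]
    intro p
    refine tendsto_const_nhds.congr' ?_
    filter_upwards [eventually_ge_atTop (⌈p.1 * p.2 + p.2 / T⌉₊ + 1)] with N hN
    exact E_eq T p.1 p.2 N hN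

theorem E_measurable₁ (T X : ℝ) : Measurable (fun u : ℝ => E T u X) := by
  have h1 : Measurable (fun u : ℝ => ((u, X) : ℝ × ℝ)) := measurable_id.prodMk measurable_const
  have h2 := Measurable.comp (E_measurable T) h1
  exact h2

theorem E_measurable₂ (T u : ℝ) : Measurable (fun X : ℝ => E T u X) := by
  have h1 : Measurable (fun X : ℝ => ((u, X) : ℝ × ℝ)) := measurable_const.prodMk measurable_id
  have h2 := Measurable.comp (E_measurable T) h1
  exact h2

theorem E_bd (T u X : ℝ) (hT : 1 ≤ T) (hu : u ≤ 2) (hX : 0 ≤ X) : |E T u X| ≤ 3 * X + 2 := by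
  rw [E_eq T u X _ le_rfl]
  refine (Finset.abs_sum_le_sum_abs _ _).trans ?_
  have h1 : ∀ n ∈ Finset.range (⌈u * X + X / T⌉₊ + 1), |tm T u n X| ≤ 1 := by
    intro n _
    unfold tm
    split_ifs
    · exact abs_mu_le n
    · simp
  refine (Finset.sum_le_sum h1).trans ?_
  simp only [Finset.sum_const, Finset.card_range, nsmul_eq_mul, mul_one]
  push_cast
  have h2 : X / T ≤ X := div_le_self hX hT
  have h3 : u * X ≤ 2 * X := mul_le_mul_of_nonneg_right hu hX
  have h6 : (⌈u * X + X / T⌉₊ : ℝ) ≤ (⌈3 * X⌉₊ : ℝ) := by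
    exact_mod_cast Nat.ceil_le_ceil (by linarith)
  have h7 := (Nat.ceil_lt_add_one (show 0 ≤ 3 * X by linarith)).le
  linarith

theorem E_zero (T u X : ℝ) (hT : 1 ≤ T) (hu : u ≤ 2) (hX : X < 1 / 3) : E T u X = 0 := by
  rw [E_eq T u X _ le_rfl]
  refine Finset.sum_eq_zero fun n _ => ?_
  unfold tm
  split_ifs with h
  · have h4 := abs_nonneg ((n : ℝ) - u * X)
    have h5 := le_abs_self ((n : ℝ) - u * X)
    have h0 : 0 < X / T := by linarith
    have hX0 : 0 < X := by
      by_contra h'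
      have : X / T ≤ 0 := div_nonpos_of_nonpos_of_nonneg (by linarith) (by linarith)
      linarith
    have h2 : X / T ≤ X := div_le_self hX0.le hT
    have h3 : u * X ≤ 2 * X := mul_le_mul_of_nonneg_right hu hX0.le
    have h6 : (n : ℝ) < 1 := by linarith
    have h7 : n = 0 := by
      have : n < 1 := by exact_mod_cast h6
      omega
    rw [h7, mu_zero]
  · rfl

/-- the variance as an average over `u` -/
theorem V_eq (T X : ℝ) (hX : 0 < X) :
    V X (X / T) = ∫ u in (1:ℝ)..2, E T u X ^ 2 := by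
  unfold V E
  have h := intervalIntegral.integral_comp_mul_right (a := 1) (b := 2) (fun x => M x (X / T) ^ 2) hX.ne'
  rw [h, smul_eq_mul, one_mul, one_div]

theorem Lw_eq (T δ : ℝ) (hT : 1 ≤ T) :
    Lw T δ = ∫⁻ X in Ioi (0:ℝ), ∫⁻ u in Ioc (1:ℝ) 2,
      ENNReal.ofReal (T * E T u X ^ 2 * X ^ (-(2 * δ) - 2)) := by
  unfold Lw
  refine setLIntegral_congr_fun measurableSet_Ioi fun X hX => ?_
  have hX0 : (0:ℝ) < X := hX
  have hT0 : 0 < T := by linarith
  have e1 : v T X * X ^ (-(2 * δ) - 1) = ∫ u in Ioc (1:ℝ) 2, T * E T u X ^ 2 * X ^ (-(2 * δ) - 2) := by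
    unfold v
    rw [V_eq T X hX0, intervalIntegral.integral_of_le (by norm_num)]
    rw [integral_mul_const, integral_const_mul]
    have e2 : X ^ (-(2 * δ) - 1) = X ^ (-(2 * δ) - 2) * X := by
      rw [← Real.rpow_add_one hX0.ne']
      congr 1
      ring
    rw [e2]
    field_simp
  rw [e1]
  have hint : Integrable (fun u => T * E T u X ^ 2 * X ^ (-(2 * δ) - 2)) (volume.restrict (Ioc (1:ℝ) 2)) := by
    refine Integrable.mul_const (Integrable.const_mul ?_ _) _
    refine Integrable.of_bound (C := (3 * X + 2) ^ 2) ?_ ?_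
    · exact ((E_measurable₁ T X).pow_const 2).aestronglyMeasurable
    · rw [ae_restrict_iff' measurableSet_Ioc]
      refine Eventually.of_forall fun u hu => ?_
      rw [Real.norm_eq_abs, abs_pow]
      exact pow_le_pow_left₀ (abs_nonneg _) (E_bd T u X hT hu.2 hX0.le) 2
  rw [ofReal_integral_eq_lintegral_ofReal hint]
  refine Eventually.of_forall fun u => ?_
  have : 0 ≤ X ^ (-(2 * δ) - 2) := Real.rpow_nonneg hX0.le _
  simp only [Pi.zero_apply]
  positivity

theorem ker_measurable (T δ : ℝ) : Measurable (fun p : ℝ × ℝ =>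
    ENNReal.ofReal (T * E T p.1 p.2 ^ 2 * p.2 ^ (-(2 * δ) - 2))) := by
  have h := E_measurable T
  refine ENNReal.measurable_ofReal.comp ?_
  exact ((measurable_const.mul (h.pow_const 2)).mul (measurable_snd.pow_const _))

theorem Lw_swap (T δ : ℝ) (hT : 1 ≤ T) :
    Lw T δ = ∫⁻ u in Ioc (1:ℝ) 2, ∫⁻ X in Ioi (0:ℝ),
      ENNReal.ofReal (T * E T u X ^ 2 * X ^ (-(2 * δ) - 2)) := by
  rw [Lw_eq T δ hT]
  exact lintegral_lintegral_swap
    ((ker_measurable T δ).comp measurable_swap).aemeasurable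

theorem ae_fin (T δ : ℝ) (hT : 1 ≤ T) (h : Lw T δ < ⊤) :
    ∀ᵐ u ∂(volume.restrict (Ioc (1:ℝ) 2)), (∫⁻ X in Ioi (0:ℝ),
      ENNReal.ofReal (T * E T u X ^ 2 * X ^ (-(2 * δ) - 2))) < ⊤ := by
  rw [Lw_swap T δ hT] at h
  exact ae_lt_top (Measurable.lintegral_prod_right' (ker_measurable T δ)) h.ne

end Pool.Agent.H675.HB
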