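import Pool.Agent.H675.HB.PLa

/-! # Project HB of helper101, piece `S_PL`, part B: the Mellin transform of a short Moebius sum -/

set_option autoImplicit false

open Complex MeasureTheory Filter Topology Set

namespace Pool.Agent.H675.HB

open Pool.Agent.H101.HB

/-- the finiteness hypothesis for one `u` -/
def Fin0 (T u δ₀ : ℝ) : Prop :=
  IntegrableOn (fun X : ℝ => E T u X ^ 2 * X ^ (-(2 * δ₀) - 2)) (Ioi 0)

theorem fin0_of (T u δ₀ : ℝ) (hT : 1 ≤ T) (h : (∫⁻ X in Ioi (0:ℝ),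
      ENNReal.ofReal (T * E T u X ^ 2 * X ^ (-(2 * δ₀) - 2))) < ⊤) : Fin0 T u δ₀ := by
  have hT0 : 0 < T := by linarith
  have hm : Measurable (fun X : ℝ => T * E T u X ^ 2 * X ^ (-(2 * δ₀) - 2)) :=
    (measurable_const.mul ((E_measurable₂ T u).pow_const 2)).mul (measurable_id.pow_const _)
  have h1 : IntegrableOn (fun X : ℝ => T * E T u X ^ 2 * X ^ (-(2 * δ₀) - 2)) (Ioi 0) := by
    refine ⟨hm.aestronglyMeasurable, ?_⟩
    rw [hasFiniteIntegral_iff_ofReal]
    · exact h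
    · rw [EventuallyLE, ae_restrict_iff' measurableSet_Ioi]
      refine Eventually.of_forall fun X hX => ?_
      have : 0 ≤ X ^ (-(2 * δ₀) - 2) := Real.rpow_nonneg (le_of_lt hX) _
      simp only [Pi.zero_apply]
      positivity
  have h2 := h1.const_mul (1 / T)
  refine h2.congr (Eventually.of_forall fun X => ?_)
  simp only
  field_simp

/-- integrability away from zero suffices -/
theorem intOn_of (f : ℝ → ℝ) (h0 : ∀ X, X < 1 / 3 → f X = 0) (h1 : IntegrableOn f (Ioi (1 / 4))) :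
    IntegrableOn f (Ioi 0) := by
  have h2 : IntegrableOn f (Ioc 0 (1 / 4)) := by
    have : IntegrableOn (fun _ : ℝ => (0:ℝ)) (Ioc 0 (1 / 4)) := integrableOn_zero
    refine this.congr_fun (fun X hX => ?_) measurableSet_Ioc
    exact (h0 X (by linarith [hX.2])).symm
  have h3 := h2.union h1
  rwa [Ioc_union_Ioi_eq_Ioi (by norm_num)] at h3

/-- square integrability for larger exponents -/
theorem sq_int {T u δ₀ : ℝ} (hT : 1 ≤ T) (hu : u ≤ 2) (h : Fin0 T u δ₀) (δ : ℝ) (hδ : δ₀ ≤ δ) :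
    Fin0 T u δ := by
  refine intOn_of _ (fun X hX => by rw [E_zero T u X hT hu hX]; ring) ?_
  have h1 : IntegrableOn (fun X : ℝ => E T u X ^ 2 * X ^ (-(2 * δ₀) - 2)) (Ioi (1 / 4)) :=
    h.mono_set (Ioi_subset_Ioi (by norm_num))
  have h2 := h1.mul_const ((1 / 4 : ℝ) ^ (-(2 * (δ - δ₀))))
  refine Integrable.mono' h2 ?_ ?_
  · exact (((E_measurable₂ T u).pow_const 2).mul (measurable_id.pow_const _)).aestronglyMeasurable
  · rw [ae_restrict_iff' measurableSet_Ioi]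
    refine Eventually.of_forall fun X hX => ?_
    have hX' : (1 / 4 : ℝ) < X := hX
    have hX0 : 0 < X := by linarith
    have e1 : X ^ (-(2 * δ) - 2) = X ^ (-(2 * δ₀) - 2) * X ^ (-(2 * (δ - δ₀))) := by
      rw [← Real.rpow_add hX0]
      congr 1
      ring
    have e2 : X ^ (-(2 * (δ - δ₀))) ≤ (1 / 4 : ℝ) ^ (-(2 * (δ - δ₀))) :=
      Real.rpow_le_rpow_of_nonpos (by norm_num) hX'.le (by linarith)
    have e3 : 0 ≤ X ^ (-(2 * δ₀) - 2) := Real.rpow_nonneg hX0.le _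
    have e4 : 0 ≤ X ^ (-(2 * (δ - δ₀))) := Real.rpow_nonneg hX0.le _
    rw [Real.norm_eq_abs, abs_of_nonneg (by positivity), e1, ← mul_assoc]
    exact mul_le_mul_of_nonneg_left e2 (by positivity)

/-- absolute integrability -/
theorem abs_int {T u δ₀ : ℝ} (hT : 1 ≤ T) (hu : u ≤ 2) (h : Fin0 T u δ₀) (x : ℝ)
    (hx : 1 / 2 + δ₀ < x) : IntegrableOn (fun X : ℝ => |E T u X| * X ^ (-x - 1)) (Ioi 0) := by
  refine intOn_of _ (fun X hX => by rw [E_zero T u X hT hu hX]; simp) ?_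
  have h1 : IntegrableOn (fun X : ℝ => E T u X ^ 2 * X ^ (-(2 * δ₀) - 2)) (Ioi (1 / 4)) :=
    h.mono_set (Ioi_subset_Ioi (by norm_num))
  have h2 : IntegrableOn (fun X : ℝ => X ^ (-(2 * x) + 2 * δ₀)) (Ioi (1 / 4)) :=
    integrableOn_Ioi_rpow_of_lt (by linarith) (by norm_num)
  refine Integrable.mono' (h1.add h2) ?_ ?_
  · exact (((E_measurable₂ T u).norm).mul (measurable_id.pow_const _)).aestronglyMeasurable
  · rw [ae_restrict_iff' measurableSet_Ioi]
    refine Eventually.of_forall fun X hX => ?_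
    have hX' : (1 / 4 : ℝ) < X := hX
    have hX0 : 0 < X := by linarith
    have e1 : X ^ (-x - 1) = X ^ (-δ₀ - 1) * X ^ (-x + δ₀) := by
      rw [← Real.rpow_add hX0]
      congr 1
      ring
    have e2 : X ^ (-(2 * δ₀) - 2) = (X ^ (-δ₀ - 1)) ^ 2 := by
      rw [← Real.rpow_natCast, ← Real.rpow_mul hX0.le]
      congr 1
      push_cast
      ring
    have e3 : X ^ (-(2 * x) + 2 * δ₀) = (X ^ (-x + δ₀)) ^ 2 := by
      rw [← Real.rpow_natCast, ← Real.rpow_mul hX0.le]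
      congr 1
      push_cast
      ring
    have e4 : 0 ≤ X ^ (-δ₀ - 1) := Real.rpow_nonneg hX0.le _
    have e5 : 0 ≤ X ^ (-x + δ₀) := Real.rpow_nonneg hX0.le _
    simp only [Pi.add_apply]
    rw [Real.norm_eq_abs, abs_of_nonneg (by rw [e1]; positivity), e1, e2, e3]
    have e6 : E T u X ^ 2 = |E T u X| ^ 2 := (sq_abs _).symm
    rw [e6]
    set p := |E T u X| * X ^ (-δ₀ - 1)
    set q := X ^ (-x + δ₀)
    have : |E T u X| * (X ^ (-δ₀ - 1) * q) = p * q := by ring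
    rw [this]
    have e7 : |E T u X| ^ 2 * (X ^ (-δ₀ - 1)) ^ 2 = p ^ 2 := by ring
    rw [e7]
    nlinarith [sq_nonneg (p - q), sq_nonneg p, sq_nonneg q]

/-- the Mellin transform -/
noncomputable def F (T u : ℝ) (s : ℂ) : ℂ := ∫ X in Ioi (0:ℝ), (E T u X : ℂ) * (X : ℂ) ^ (-s - 1)

theorem norm_integrand (T u X : ℝ) (s : ℂ) (hX : 0 < X) :
    ‖(E T u X : ℂ) * (X : ℂ) ^ (-s - 1)‖ = |E T u X| * X ^ (-s.re - 1) := by
  rw [norm_mul, Complex.norm_real, Real.norm_eq_abs, Complex.norm_cpow_eq_rpow_re_of_pos hX]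
  simp

theorem meas_integrand (T u : ℝ) (s : ℂ) :
    Measurable (fun X : ℝ => (E T u X : ℂ) * (X : ℂ) ^ (-s - 1)) :=
  (Complex.measurable_ofReal.comp (E_measurable₂ T u)).mul
    (Complex.measurable_ofReal.pow_const _)

theorem integrand_int {T u δ₀ : ℝ} (hT : 1 ≤ T) (hu : u ≤ 2) (h : Fin0 T u δ₀) (s : ℂ)
    (hx : 1 / 2 + δ₀ < s.re) :
    IntegrableOn (fun X : ℝ => (E T u X : ℂ) * (X : ℂ) ^ (-s - 1)) (Ioi 0) := by
  refine Integrable.mono' (abs_int hT hu h s.re hx) (meas_integrand T u s).aestronglyMeasurable ?_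
  rw [ae_restrict_iff' measurableSet_Ioi]
  exact Eventually.of_forall fun X hX => (norm_integrand T u X s hX).le

theorem log_bd (X ε r : ℝ) (hX : 1 / 3 ≤ X) (hε : 0 < ε) (h1 : ε ≤ r) (h2 : r ≤ 3 * ε) :
    |Real.log X| * X ^ (-r) ≤ 1 / ε + 2 * (1 / 3 : ℝ) ^ (-(3 * ε)) := by
  have hX0 : 0 < X := by linarith
  have hnn : 0 ≤ (1 / 3 : ℝ) ^ (-(3 * ε)) := by positivity
  rcases le_total 1 X with h | h
  · have e1 : |Real.log X| ≤ X ^ ε / ε := by
      rw [abs_of_nonneg (Real.log_nonneg h)]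
      exact Real.log_le_rpow_div hX0.le hε
    have e2 : X ^ (-r) ≤ X ^ (-ε) := Real.rpow_le_rpow_of_exponent_le h (by linarith)
    have e3 : |Real.log X| * X ^ (-r) ≤ X ^ ε / ε * X ^ (-ε) :=
      mul_le_mul e1 e2 (Real.rpow_nonneg hX0.le _) (by positivity)
    have e4 : X ^ ε / ε * X ^ (-ε) = 1 / ε := by
      rw [Real.rpow_neg hX0.le]
      field_simp
    linarith
  · have e1 : |Real.log X| ≤ 2 := by
      rw [abs_of_nonpos (Real.log_nonpos hX0.le h)]
      have h3 : Real.log (1 / 3) ≤ Real.log X := Real.log_le_log (by norm_num) hX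
      have h4 : Real.log (1 / 3) = -Real.log 3 := by rw [one_div, Real.log_inv]
      have h5 : Real.log 3 ≤ 3 - 1 := Real.log_le_sub_one_of_pos (by norm_num)
      linarith
    have e2 : X ^ (-r) ≤ (1 / 3 : ℝ) ^ (-(3 * ε)) := by
      calc X ^ (-r) ≤ (1 / 3 : ℝ) ^ (-r) := Real.rpow_le_rpow_of_nonpos (by norm_num) hX (by linarith)
        _ ≤ (1 / 3 : ℝ) ^ (-(3 * ε)) :=
          Real.rpow_le_rpow_of_exponent_ge (by norm_num) (by norm_num) (by linarith)
    have e3 : |Real.log X| * X ^ (-r) ≤ 2 * (1 / 3 : ℝ) ^ (-(3 * ε)) :=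
      mul_le_mul e1 e2 (Real.rpow_nonneg hX0.le _) (by norm_num)
    have : 0 < 1 / ε := by positivity
    linarith

theorem F_diff {T u δ₀ : ℝ} (hT : 1 ≤ T) (hu : u ≤ 2) (h : Fin0 T u δ₀) (s₀ : ℂ)
    (hs : 1 / 2 + δ₀ < s₀.re) : DifferentiableAt ℂ (F T u) s₀ := by
  set ε : ℝ := (s₀.re - (1 / 2 + δ₀)) / 3 with hε
  have hε0 : 0 < ε := by rw [hε]; linarith
  set K : ℝ := 1 / ε + 2 * (1 / 3 : ℝ) ^ (-(3 * ε)) with hK
  have hre : ∀ s ∈ Metric.ball s₀ ε, 1 / 2 + δ₀ + 2 * ε < s.re ∧ s.re < 1 / 2 + δ₀ + 4 * ε := by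
    intro s hs'
    rw [Metric.mem_ball, dist_eq_norm] at hs'
    have h1 := (Complex.abs_re_le_norm (s - s₀)).trans_lt hs'
    rw [Complex.sub_re, abs_lt] at h1
    have : s₀.re = 1 / 2 + δ₀ + 3 * ε := by rw [hε]; ring
    constructor <;> linarith [h1.1, h1.2]
  have key := hasDerivAt_integral_of_dominated_loc_of_deriv_le (μ := volume.restrict (Ioi (0:ℝ)))
    (F := fun s : ℂ => fun X : ℝ => (E T u X : ℂ) * (X : ℂ) ^ (-s - 1))
    (F' := fun s : ℂ => fun X : ℝ => (E T u X : ℂ) * ((X : ℂ) ^ (-s - 1) * Complex.log X * (-1)))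
    (bound := fun X : ℝ => K * (|E T u X| * X ^ (-(1 / 2 + δ₀ + ε) - 1)))
    (x₀ := s₀) (Metric.ball_mem_nhds s₀ hε0)
    (Eventually.of_forall fun s => (meas_integrand T u s).aestronglyMeasurable)
    (integrand_int hT hu h s₀ hs) ?_ ?_ ?_ ?_
  · exact key.2.differentiableAt
  · have h1 : Measurable (fun X : ℝ => (X : ℂ) ^ (-s₀ - 1)) := Complex.measurable_ofReal.pow_const _
    have h2 : Measurable (fun X : ℝ => Complex.log (X : ℂ)) := Complex.measurable_log.comp Complex.measurable_ofReal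
    exact ((Complex.measurable_ofReal.comp (E_measurable₂ T u)).mul
      ((h1.mul h2).mul measurable_const)).aestronglyMeasurable
  · rw [ae_restrict_iff' measurableSet_Ioi]
    refine Eventually.of_forall fun X hX s hs' => ?_
    have hX0 : (0:ℝ) < X := hX
    by_cases hX3 : X < 1 / 3
    · rw [E_zero T u X hT hu hX3]
      simp
    · push Not at hX3
      obtain ⟨h3, h4⟩ := hre s hs'
      rw [norm_mul, norm_mul, norm_mul, Complex.norm_real, Real.norm_eq_abs,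
        Complex.norm_cpow_eq_rpow_re_of_pos hX0, ← Complex.ofReal_log hX0.le, Complex.norm_real,
        Real.norm_eq_abs, norm_neg, norm_one, mul_one]
      have e1 : (-s - 1).re = (-(1 / 2 + δ₀ + ε) - 1) + (-(s.re - (1 / 2 + δ₀ + ε))) := by
        simp only [Complex.sub_re, Complex.neg_re, Complex.one_re]
        ring
      rw [e1, Real.rpow_add hX0]
      have e2 := log_bd X ε (s.re - (1 / 2 + δ₀ + ε)) hX3 hε0 (by linarith) (by linarith)
      have e3 : 0 ≤ X ^ (-(1 / 2 + δ₀ + ε) - 1) := Real.rpow_nonneg hX0.le _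
      calc |E T u X| * (X ^ (-(1 / 2 + δ₀ + ε) - 1) * X ^ (-(s.re - (1 / 2 + δ₀ + ε))) * |Real.log X|)
          = (|E T u X| * X ^ (-(1 / 2 + δ₀ + ε) - 1)) *
            (|Real.log X| * X ^ (-(s.re - (1 / 2 + δ₀ + ε)))) := by ring
        _ ≤ (|E T u X| * X ^ (-(1 / 2 + δ₀ + ε) - 1)) * K :=
            mul_le_mul_of_nonneg_left e2 (by positivity)
        _ = _ := by ring
  · exact (abs_int hT hu h (1 / 2 + δ₀ + ε) (by linarith)).const_mul K
  · rw [ae_restrict_iff' measurableSet_Ioi]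
    refine Eventually.of_forall fun X hX s hs' => ?_
    have hX0 : (0:ℝ) < X := hX
    have hXc : (X : ℂ) ≠ 0 := by exact_mod_cast hX0.ne'
    have h1 : HasDerivAt (fun s : ℂ => -s - 1) (-1) s := ((hasDerivAt_id s).neg).sub_const 1
    have h2 := h1.const_cpow (c := (X : ℂ)) (Or.inl hXc)
    exact h2.const_mul _

end Pool.Agent.H675.HB
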