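import Pool.Agent.H675.HB.PLb

/-! # Project HB of helper101, piece `S_PL`, part C: the Mellin transform for `Re s > 1` -/

set_option autoImplicit false

open Complex MeasureTheory Filter Topology Set

namespace Pool.Agent.H675.HB

open Pool.Agent.H101.HB

/-- Dirichlet series of `1 / zeta` -/
theorem hasSum_mu (s : ℂ) (hs : 1 < s.re) :
    HasSum (fun n : ℕ => (mu n : ℂ) * (n : ℂ) ^ (-s)) (riemannZeta s)⁻¹ := by
  have h1 := (ArithmeticFunction.LSeriesSummable_moebius_iff.2 hs).hasSum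
  have h2 := ArithmeticFunction.LSeries_zeta_mul_Lseries_moebius hs
  rw [ArithmeticFunction.LSeries_zeta_eq_riemannZeta hs] at h2
  have h3 : LSeries (fun n => ((ArithmeticFunction.moebius n : ℤ) : ℂ)) s = (riemannZeta s)⁻¹ :=
    eq_inv_of_mul_eq_one_right h2
  have h4 : (fun n : ℕ => (mu n : ℂ) * (n : ℂ) ^ (-s)) =
      LSeries.term (fun n => ((ArithmeticFunction.moebius n : ℤ) : ℂ)) s := by
    funext n
    by_cases hn : n = 0
    · subst hn
      simp [mu_zero]
    · rw [LSeries.term_of_ne_zero hn, Complex.cpow_neg, div_eq_mul_inv]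
      simp [mu]
  rw [h4, ← h3]
  exact h1

theorem div_cpow' (x y : ℝ) (hx : 0 < x) (hy : 0 < y) (s : ℂ) :
    ((x / y : ℝ) : ℂ) ^ (-s) = (x : ℂ) ^ (-s) * (y : ℂ) ^ s := by
  have h1 : ((x / y : ℝ) : ℂ) ≠ 0 := by exact_mod_cast (div_pos hx hy).ne'
  have h2 : (x : ℂ) ≠ 0 := by exact_mod_cast hx.ne'
  have h3 : (y : ℂ) ≠ 0 := by exact_mod_cast hy.ne'
  rw [Complex.cpow_def_of_ne_zero h1, Complex.cpow_def_of_ne_zero h2, Complex.cpow_def_of_ne_zero h3,
    ← Complex.exp_add, ← Complex.ofReal_log (div_pos hx hy).le, ← Complex.ofReal_log hx.le,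
    ← Complex.ofReal_log hy.le, Real.log_div hx.ne' hy.ne']
  congr 1
  push_cast
  ring

/-- the difference of powers -/
noncomputable def D (T u : ℝ) (s : ℂ) : ℂ :=
  ((u + 1 / (2 * T) : ℝ) : ℂ) ^ s - ((u - 1 / (2 * T) : ℝ) : ℂ) ^ s

theorem ab_pos {T u : ℝ} (hT : 1 ≤ T) (hu : 1 < u) :
    0 < 1 / (2 * T) ∧ 1 / 2 < u - 1 / (2 * T) ∧ 1 < u + 1 / (2 * T) := by
  have h1 : 0 < 1 / (2 * T) := by positivity
  have h2 : 1 / (2 * T) ≤ 1 / 2 := by
    apply one_div_le_one_div_of_le (by norm_num)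
    linarith
  refine ⟨h1, by linarith, by linarith⟩

theorem tm_eq {T u : ℝ} (hT : 1 ≤ T) (hu : 1 < u) (n : ℕ) (X : ℝ) :
    tm T u n X = Set.indicator (Ioo ((n : ℝ) / (u + 1 / (2 * T))) ((n : ℝ) / (u - 1 / (2 * T))))
      (fun _ => mu n) X := by
  obtain ⟨h0, hb, ha⟩ := ab_pos hT hu
  have hT0 : 0 < T := by linarith
  have e1 : X / T / 2 = X * (1 / (2 * T)) := by field_simp
  have hiff : |(n : ℝ) - u * X| < X / T / 2 ↔
      X ∈ Ioo ((n : ℝ) / (u + 1 / (2 * T))) ((n : ℝ) / (u - 1 / (2 * T))) := by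
    have hb0 : 0 < u - 1 / (2 * T) := by linarith
    have ha0 : 0 < u + 1 / (2 * T) := by linarith
    rw [Set.mem_Ioo, div_lt_iff₀ ha0, lt_div_iff₀ hb0, e1, abs_lt]
    constructor
    · rintro ⟨h1, h2⟩
      constructor <;> nlinarith
    · rintro ⟨h1, h2⟩
      constructor <;> nlinarith
  unfold tm
  by_cases h : X ∈ Ioo ((n : ℝ) / (u + 1 / (2 * T))) ((n : ℝ) / (u - 1 / (2 * T)))
  · rw [Set.indicator_of_mem h, if_pos (hiff.2 h)]
  · rw [Set.indicator_of_notMem h, if_neg (fun h' => h (hiff.1 h'))]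

theorem term_int {T u : ℝ} (hT : 1 ≤ T) (hu : 1 < u) (n : ℕ) (s : ℂ) (hs : s ≠ 0) :
    IntegrableOn (fun X : ℝ => (tm T u n X : ℂ) * (X : ℂ) ^ (-s - 1)) (Ioi 0) ∧
    ∫ X in Ioi (0:ℝ), (tm T u n X : ℂ) * (X : ℂ) ^ (-s - 1) =
      (mu n : ℂ) * (n : ℂ) ^ (-s) * (D T u s / s) := by
  obtain ⟨h0, hb, ha⟩ := ab_pos hT hu
  by_cases hn : n = 0
  · subst hn
    have e : ∀ X : ℝ, (tm T u 0 X : ℂ) * (X : ℂ) ^ (-s - 1) = 0 := by
      intro X
      rw [tm_eq hT hu]
      simp [mu_zero]
    simp_rw [e]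
    constructor
    · exact integrableOn_zero
    · simp [mu_zero]
  have hn0 : (0 : ℝ) < n := by exact_mod_cast Nat.pos_of_ne_zero hn
  set a := u + 1 / (2 * T) with hadef
  set b := u - 1 / (2 * T) with hbdef
  have ha0 : 0 < a := by linarith
  have hb0 : 0 < b := by linarith
  have hab : (n : ℝ) / a ≤ (n : ℝ) / b := div_le_div_of_nonneg_left hn0.le hb0 (by linarith)
  have hna : 0 < (n : ℝ) / a := by positivity
  have e1 : (fun X : ℝ => (tm T u n X : ℂ) * (X : ℂ) ^ (-s - 1)) =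
      Set.indicator (Ioo ((n : ℝ) / a) ((n : ℝ) / b)) (fun X : ℝ => (mu n : ℂ) * (X : ℂ) ^ (-s - 1)) := by
    funext X
    rw [tm_eq hT hu]
    by_cases h : X ∈ Ioo ((n : ℝ) / a) ((n : ℝ) / b)
    · rw [Set.indicator_of_mem h, Set.indicator_of_mem h]
    · rw [Set.indicator_of_notMem h, Set.indicator_of_notMem h]
      simp
  have hsub : Ioo ((n : ℝ) / a) ((n : ℝ) / b) ⊆ Ioi 0 := fun X hX => hna.trans hX.1
  have h0n : (0 : ℝ) ∉ uIcc ((n : ℝ) / a) ((n : ℝ) / b) := by
    rw [uIcc_of_le hab, mem_Icc]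
    intro h
    linarith [h.1]
  have hii : IntervalIntegrable (fun X : ℝ => (X : ℂ) ^ (-s - 1)) volume ((n : ℝ) / a) ((n : ℝ) / b) :=
    intervalIntegral.intervalIntegrable_cpow (Or.inr h0n)
  have hi : IntegrableOn (fun X : ℝ => (mu n : ℂ) * (X : ℂ) ^ (-s - 1)) (Ioo ((n : ℝ) / a) ((n : ℝ) / b)) :=
    (((intervalIntegrable_iff_integrableOn_Ioc_of_le hab).1 hii).mono_set Ioo_subset_Ioc_self).const_mul _
  rw [e1]
  constructor
  · rw [IntegrableOn, integrable_indicator_iff measurableSet_Ioo, IntegrableOn,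
      Measure.restrict_restrict measurableSet_Ioo, inter_eq_left.2 hsub]
    exact hi
  · rw [integral_indicator measurableSet_Ioo, Measure.restrict_restrict measurableSet_Ioo,
      inter_eq_left.2 hsub, integral_const_mul, ← integral_Ioc_eq_integral_Ioo,
      ← intervalIntegral.integral_of_le hab, integral_cpow (Or.inr ⟨?_, h0n⟩)]
    · have e2 : -s - 1 + 1 = -s := by ring
      rw [e2, div_cpow' _ _ hn0 hb0, div_cpow' _ _ hn0 ha0]
      unfold D
      rw [← hadef, ← hbdef]
      push_cast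
      field_simp
      ring
    · intro h
      apply hs
      have : -s = 0 := by linear_combination h
      simpa using this

theorem part_bd (T u X : ℝ) (hT : 1 ≤ T) (hu : u ≤ 2) (hX : 0 ≤ X) (N : ℕ) :
    |∑ n ∈ Finset.range N, tm T u n X| ≤ 3 * X + 2 := by
  have h1 : ∀ n ∈ Finset.range N, |tm T u n X| ≤ if n ∈ Finset.range (⌈u * X + X / T⌉₊ + 1) then 1 else 0 := by
    intro n _
    unfold tm
    split_ifs with h2 h3 h3
    · exact abs_mu_le n
    · exfalso
      rw [Finset.mem_range, not_lt] at h3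
      have h1 : (⌈u * X + X / T⌉₊ : ℝ) + 1 ≤ n := by exact_mod_cast h3
      have h2' := Nat.le_ceil (u * X + X / T)
      have h4 := abs_nonneg ((n : ℝ) - u * X)
      have h5 := le_abs_self ((n : ℝ) - u * X)
      linarith
    · simp
    · simp
  refine (Finset.abs_sum_le_sum_abs _ _).trans ((Finset.sum_le_sum h1).trans ?_)
  rw [← Finset.sum_filter]
  have h8 : ((Finset.range N).filter (fun n => n ∈ Finset.range (⌈u * X + X / T⌉₊ + 1))).card ≤
      ⌈u * X + X / T⌉₊ + 1 := by
    refine (Finset.card_le_card (t := Finset.range (⌈u * X + X / T⌉₊ + 1)) ?_).trans (by simp)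
    intro n hn
    exact (Finset.mem_filter.1 hn).2
  simp only [Finset.sum_const, nsmul_eq_mul, mul_one]
  have h9 : (((Finset.range N).filter (fun n => n ∈ Finset.range (⌈u * X + X / T⌉₊ + 1))).card : ℝ) ≤
      (⌈u * X + X / T⌉₊ : ℝ) + 1 := by exact_mod_cast h8
  refine h9.trans ?_
  have h2 : X / T ≤ X := div_le_self hX hT
  have h3 : u * X ≤ 2 * X := mul_le_mul_of_nonneg_right hu hX
  have h6 : (⌈u * X + X / T⌉₊ : ℝ) ≤ (⌈3 * X⌉₊ : ℝ) := by
    exact_mod_cast Nat.ceil_le_ceil (by linarith)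
  have h7 := (Nat.ceil_lt_add_one (show 0 ≤ 3 * X by linarith)).le
  linarith

theorem tm_zero (T u X : ℝ) (hT : 1 ≤ T) (hu : u ≤ 2) (hX : X < 1 / 3) (n : ℕ) : tm T u n X = 0 := by
  unfold tm
  split_ifs with h
  · have h4 := abs_nonneg ((n : ℝ) - u * X)
    have h5 := le_abs_self ((n : ℝ) - u * X)
    have h0 : 0 < X / T := by linarith
    have hX0 : 0 < X := by
      by_contra h'
      have : X / T ≤ 0 := div_nonpos_of_nonpos_of_nonneg (by linarith) (by linarith)
      linarith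
    have h2 : X / T ≤ X := div_le_self hX0.le hT
    have h3 : u * X ≤ 2 * X := mul_le_mul_of_nonneg_right hu hX0.le
    have h6 : (n : ℝ) < 1 := by linarith
    have h7 : n = 0 := by
      have : n < 1 := by exact_mod_cast h6
      omega
    rw [h7, mu_zero]
  · rfl

theorem F_eq {T u : ℝ} (hT : 1 ≤ T) (hu : 1 < u) (hu2 : u ≤ 2) (s : ℂ) (hs : 1 < s.re) :
    F T u s = (riemannZeta s)⁻¹ * (D T u s / s) := by
  have hs0 : s ≠ 0 := by
    rintro rfl
    simp at hs
    linarith
  have h1 : Tendsto (fun N : ℕ => ∫ X in Ioi (0:ℝ), ((∑ n ∈ Finset.range N, tm T u n X : ℝ) : ℂ) *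
      (X : ℂ) ^ (-s - 1)) atTop (𝓝 (F T u s)) := by
    unfold F
    refine tendsto_integral_of_dominated_convergence (fun X : ℝ => if X < 1 / 3 then 0 else 9 * X ^ (-s.re))
      ?_ ?_ ?_ ?_
    · intro N
      refine Measurable.aestronglyMeasurable ?_
      refine Measurable.mul ?_ (Complex.measurable_ofReal.pow_const _)
      refine Complex.measurable_ofReal.comp (Finset.measurable_fun_sum _ fun n _ => ?_)
      have h2 : Measurable (fun X : ℝ => ((u, X) : ℝ × ℝ)) := measurable_const.prodMk measurable_id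
      have h3 := Measurable.comp (tm_measurable T n) h2
      exact h3
    · refine intOn_of _ (fun X hX => if_pos hX) ?_
      have h2 : IntegrableOn (fun X : ℝ => 9 * X ^ (-s.re)) (Ioi (1 / 4)) :=
        (integrableOn_Ioi_rpow_of_lt (by linarith) (by norm_num)).const_mul 9
      refine Integrable.mono' h2 ?_ ?_
      · refine Measurable.aestronglyMeasurable ?_
        refine Measurable.ite (measurableSet_lt measurable_id measurable_const) measurable_const ?_
        exact measurable_const.mul (measurable_id.pow_const _)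
      · rw [ae_restrict_iff' measurableSet_Ioi]
        refine Eventually.of_forall fun X hX => ?_
        have hX' : (1 / 4 : ℝ) < X := hX
        have h3 : 0 ≤ X ^ (-s.re) := Real.rpow_nonneg (by linarith) _
        rw [Real.norm_eq_abs]
        split_ifs
        · rw [abs_zero]; positivity
        · rw [abs_of_nonneg (by positivity)]
    · intro N
      rw [ae_restrict_iff' measurableSet_Ioi]
      refine Eventually.of_forall fun X hX => ?_
      have hX0 : (0:ℝ) < X := hX
      split_ifs with h3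
      · have : ∑ n ∈ Finset.range N, tm T u n X = 0 :=
          Finset.sum_eq_zero fun n _ => tm_zero T u X hT hu2 h3 n
        rw [this]
        simp
      · push Not at h3
        rw [norm_mul, Complex.norm_real, Real.norm_eq_abs, Complex.norm_cpow_eq_rpow_re_of_pos hX0]
        have e1 : (-s - 1).re = -s.re + (-1) := by simp; ring
        rw [e1, Real.rpow_add hX0, Real.rpow_neg_one]
        have h4 := part_bd T u X hT hu2 hX0.le N
        have h5 : 0 ≤ X ^ (-s.re) := Real.rpow_nonneg hX0.le _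
        have h6 : 3 * X + 2 ≤ 9 * X := by linarith
        calc |∑ n ∈ Finset.range N, tm T u n X| * (X ^ (-s.re) * X⁻¹)
            ≤ (9 * X) * (X ^ (-s.re) * X⁻¹) := mul_le_mul_of_nonneg_right (h4.trans h6) (by positivity)
          _ = 9 * X ^ (-s.re) := by field_simp
    · refine Eventually.of_forall fun X => ?_
      refine tendsto_const_nhds.congr' ?_
      filter_upwards [eventually_ge_atTop (⌈u * X + X / T⌉₊ + 1)] with N hN
      rw [E_eq T u X N hN]
  have h2 : ∀ N : ℕ, ∫ X in Ioi (0:ℝ), ((∑ n ∈ Finset.range N, tm T u n X : ℝ) : ℂ) *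
      (X : ℂ) ^ (-s - 1) = ∑ n ∈ Finset.range N, (mu n : ℂ) * (n : ℂ) ^ (-s) * (D T u s / s) := by
    intro N
    have e : ∀ X : ℝ, ((∑ n ∈ Finset.range N, tm T u n X : ℝ) : ℂ) * (X : ℂ) ^ (-s - 1) =
        ∑ n ∈ Finset.range N, (tm T u n X : ℂ) * (X : ℂ) ^ (-s - 1) := by
      intro X
      rw [Complex.ofReal_sum, Finset.sum_mul]
    simp_rw [e]
    rw [integral_finsetSum _ fun n _ => (term_int hT hu n s hs0).1]
    exact Finset.sum_congr rfl fun n _ => (term_int hT hu n s hs0).2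
  have h3 := ((hasSum_mu s hs).mul_right (D T u s / s)).tendsto_sum_nat
  simp_rw [h2] at h1
  exact tendsto_nhds_unique h1 h3

end Pool.Agent.H675.HB
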