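import Pool.Agent.H675.HB.PLc
import Pool.Graph.R_seed8.H448R2.GC.X2

/-! # Project HB of helper101, piece `S_PL`, part D: analytic continuation, no zeros -/

set_option autoImplicit false

open Complex MeasureTheory Filter Topology Set

namespace Pool.Agent.H675.HB

open Pool.Agent.H101.HB

theorem G_diff : Differentiable ℂ G := Pool.Agent.H448R2.GC.zeta_one_entire

theorem D_diff {T u : ℝ} (hT : 1 ≤ T) (hu : 1 < u) : Differentiable ℂ (D T u) := by
  obtain ⟨h0, hb, ha⟩ := ab_pos hT hu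
  intro s
  have h1 : ((u + 1 / (2 * T) : ℝ) : ℂ) ≠ 0 := by
    have : u + 1 / (2 * T) ≠ 0 := by linarith
    exact_mod_cast this
  have h2 : ((u - 1 / (2 * T) : ℝ) : ℂ) ≠ 0 := by
    have : u - 1 / (2 * T) ≠ 0 := by linarith
    exact_mod_cast this
  exact (differentiableAt_id.const_cpow (Or.inl h1)).sub (differentiableAt_id.const_cpow (Or.inl h2))

theorem F_ident {T u δ₀ : ℝ} (hT : 1 ≤ T) (hu : 1 < u) (hu2 : u ≤ 2) (h0 : 0 < δ₀) (h0' : δ₀ < 1 / 2)
    (h : Fin0 T u δ₀) (s : ℂ) (hs : 1 / 2 + δ₀ < s.re) :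
    F T u s * s * G s = (s - 1) * D T u s := by
  set S : Set ℂ := {s : ℂ | 1 / 2 + δ₀ < s.re} with hS
  have hSo : IsOpen S := isOpen_lt continuous_const Complex.continuous_re
  have hSc : IsPreconnected S := (convex_halfSpace_re_gt (1 / 2 + δ₀)).isPreconnected
  have hf : AnalyticOnNhd ℂ (fun s => F T u s * s * G s) S := by
    refine DifferentiableOn.analyticOnNhd ?_ hSo
    intro z hz
    exact (((F_diff hT hu2 h z hz).mul differentiableAt_id).mul (G_diff z)).differentiableWithinAt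
  have hg : AnalyticOnNhd ℂ (fun s => (s - 1) * D T u s) S := by
    refine DifferentiableOn.analyticOnNhd ?_ hSo
    intro z hz
    exact ((differentiableAt_id.sub_const 1).mul (D_diff hT hu z)).differentiableWithinAt
  have h2 : (2 : ℂ) ∈ S := by
    rw [hS, mem_ofPred_eq]
    norm_num
    linarith
  have hev : (fun s => F T u s * s * G s) =ᶠ[𝓝 (2 : ℂ)] (fun s => (s - 1) * D T u s) := by
    have hopen : IsOpen {s : ℂ | 1 < s.re} := isOpen_lt continuous_const Complex.continuous_re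
    have hmem : (2 : ℂ) ∈ {s : ℂ | 1 < s.re} := by
      rw [mem_ofPred_eq]
      norm_num
    filter_upwards [hopen.mem_nhds hmem] with z hz
    have hz1 : 1 < z.re := hz
    have hz0 : z ≠ 0 := by
      rintro rfl
      simp at hz1
      linarith
    have hz1' : z ≠ 1 := by
      rintro rfl
      simp at hz1
    have hzeta := riemannZeta_ne_zero_of_one_lt_re hz1
    rw [F_eq hT hu hu2 z hz1]
    unfold G
    rw [Function.update_of_ne hz1']
    field_simp
  exact hf.eqOn_of_preconnected_of_eventuallyEq hg hSc h2 hev hs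

theorem D_lower {T u : ℝ} (hT : 1 ≤ T) (hu : 1 < u) (s : ℂ) :
    (u + 1 / (2 * T)) ^ s.re - (u - 1 / (2 * T)) ^ s.re ≤ ‖D T u s‖ := by
  obtain ⟨h0, hb, ha⟩ := ab_pos hT hu
  unfold D
  refine le_trans (le_of_eq ?_) (norm_sub_norm_le _ _)
  rw [Complex.norm_cpow_eq_rpow_re_of_pos (by linarith), Complex.norm_cpow_eq_rpow_re_of_pos (by linarith)]

theorem pow_sub_pos {T u : ℝ} (hT : 1 ≤ T) (hu : 1 < u) (x : ℝ) (hx : 0 < x) :
    0 < (u + 1 / (2 * T)) ^ x - (u - 1 / (2 * T)) ^ x := by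
  obtain ⟨h0, hb, ha⟩ := ab_pos hT hu
  have := Real.rpow_lt_rpow (by linarith : 0 ≤ u - 1 / (2 * T)) (by linarith : u - 1 / (2 * T) < u + 1 / (2 * T)) hx
  linarith

theorem G_ne {T u δ₀ : ℝ} (hT : 1 ≤ T) (hu : 1 < u) (hu2 : u ≤ 2) (h0 : 0 < δ₀) (h0' : δ₀ < 1 / 2)
    (h : Fin0 T u δ₀) (s : ℂ) (hs : 1 / 2 + δ₀ < s.re) : G s ≠ 0 := by
  by_cases h1 : s = 1
  · rw [h1]
    unfold G
    rw [Function.update_self]
    exact one_ne_zero
  · intro hG
    have h2 := F_ident hT hu hu2 h0 h0' h s hs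
    rw [hG, mul_zero] at h2
    have h3 : s - 1 ≠ 0 := sub_ne_zero.2 h1
    have h4 : D T u s = 0 := by
      rcases mul_eq_zero.1 h2.symm with h5 | h5
      · exact absurd h5 h3
      · exact h5
    have h5 := D_lower hT hu s
    rw [h4, norm_zero] at h5
    have h6 := pow_sub_pos hT hu s.re (by linarith)
    linarith

theorem F_bd {T u δ₀ : ℝ} (hT : 1 ≤ T) (hu2 : u ≤ 2) (h : Fin0 T u δ₀) (x : ℝ)
    (hx : 1 / 2 + δ₀ < x) : ∃ B : ℝ, 0 ≤ B ∧ ∀ s : ℂ, x ≤ s.re → s.re ≤ x + 3 → ‖F T u s‖ ≤ B := by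
  have hi := abs_int hT hu2 h x hx
  refine ⟨27 * ∫ X in Ioi (0:ℝ), |E T u X| * X ^ (-x - 1), ?_, ?_⟩
  · refine mul_nonneg (by norm_num) (setIntegral_nonneg measurableSet_Ioi fun X hX => ?_)
    have : 0 ≤ X ^ (-x - 1) := Real.rpow_nonneg (le_of_lt hX) _
    positivity
  · intro s hs1 hs2
    unfold F
    rw [← integral_const_mul]
    refine norm_integral_le_of_norm_le (hi.const_mul 27) ?_
    rw [ae_restrict_iff' measurableSet_Ioi]
    refine Eventually.of_forall fun X hX => ?_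
    have hX0 : (0:ℝ) < X := hX
    rw [norm_integrand T u X s hX0]
    by_cases hX3 : X < 1 / 3
    · rw [E_zero T u X hT hu2 hX3]
      simp
    · push Not at hX3
      have e1 : X ^ (-s.re - 1) = X ^ (-x - 1) * X ^ (-(s.re - x)) := by
        rw [← Real.rpow_add hX0]
        congr 1
        ring
      have e2 : X ^ (-(s.re - x)) ≤ 27 := by
        calc X ^ (-(s.re - x)) ≤ (1 / 3 : ℝ) ^ (-(s.re - x)) :=
              Real.rpow_le_rpow_of_nonpos (by norm_num) hX3 (by linarith)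
          _ ≤ (1 / 3 : ℝ) ^ (-(3:ℝ)) :=
              Real.rpow_le_rpow_of_exponent_ge (by norm_num) (by norm_num) (by linarith)
          _ = 27 := by
              rw [Real.rpow_neg (by norm_num)]
              norm_num
      have e3 : 0 ≤ X ^ (-x - 1) := Real.rpow_nonneg hX0.le _
      rw [e1]
      calc |E T u X| * (X ^ (-x - 1) * X ^ (-(s.re - x)))
          = (|E T u X| * X ^ (-x - 1)) * X ^ (-(s.re - x)) := by ring
        _ ≤ (|E T u X| * X ^ (-x - 1)) * 27 := mul_le_mul_of_nonneg_left e2 (by positivity)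
        _ = _ := by ring

theorem good {T u δ₀ : ℝ} (hT : 1 ≤ T) (hu : 1 < u) (hu2 : u ≤ 2) (h0 : 0 < δ₀) (h0' : δ₀ < 1 / 2)
    (h : Fin0 T u δ₀) (δ : ℝ) (hδ : δ₀ < δ) : Good (1 / 2 + δ) := by
  obtain ⟨hc0, hb, ha⟩ := ab_pos hT hu
  obtain ⟨B, hB0, hB⟩ := F_bd hT hu2 h (1 / 2 + δ) (by linarith)
  -- lower bound for the difference
  have hcont : ContinuousOn (fun x : ℝ => (u + 1 / (2 * T)) ^ x - (u - 1 / (2 * T)) ^ x)
      (Icc (1 / 2 + δ) (1 / 2 + δ + 3)) := by
    refine Continuous.continuousOn ?_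
    refine Continuous.sub ?_ ?_
    · exact Real.continuous_const_rpow (by linarith)
    · exact Real.continuous_const_rpow (by linarith)
  obtain ⟨x₀, hx₀, hmin⟩ := isCompact_Icc.exists_isMinOn
    (nonempty_Icc.2 (by linarith : (1 / 2 + δ : ℝ) ≤ 1 / 2 + δ + 3)) hcont
  set m : ℝ := (u + 1 / (2 * T)) ^ x₀ - (u - 1 / (2 * T)) ^ x₀ with hm
  have hm0 : 0 < m := pow_sub_pos hT hu x₀ (by linarith [hx₀.1])
  have hmin' : ∀ x ∈ Icc (1 / 2 + δ) (1 / 2 + δ + 3),
      m ≤ (u + 1 / (2 * T)) ^ x - (u - 1 / (2 * T)) ^ x := fun x hx => isMinOn_iff.1 hmin x hx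
  -- compact part
  have hcpt : IsCompact (Set.Icc (1 / 2 + δ) 3 ×ℂ Set.Icc (-1 : ℝ) 1) :=
    isCompact_Icc.reProdIm isCompact_Icc
  obtain ⟨Mx, hMx⟩ := hcpt.exists_bound_of_continuousOn (f := fun s => (G s)⁻¹) (by
    refine ContinuousOn.inv₀ G_diff.continuous.continuousOn ?_
    intro z hz
    rw [Complex.mem_reProdIm] at hz
    exact G_ne hT hu hu2 h0 h0' h z (by linarith [hz.1.1]))
  refine ⟨|Mx| + 1 + 3 * B / m, 1, by positivity, ?_⟩
  intro s hs1 hs2
  have hG := G_ne hT hu hu2 h0 h0' h s (by linarith)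
  refine ⟨hG, ?_⟩
  rw [pow_one]
  have hq : 0 ≤ 3 * B / m := by positivity
  have habs := abs_nonneg s.im
  by_cases hi : 1 ≤ |s.im|
  · have hs1' : s ≠ 1 := by
      rintro rfl
      norm_num at hi
    have hsub : 1 ≤ ‖s - 1‖ := by
      refine le_trans hi ?_
      have := Complex.abs_im_le_norm (s - 1)
      simpa using this
    have hid := F_ident hT hu hu2 h0 h0' h s (by linarith)
    have hD := D_lower hT hu s
    have hm' := hmin' s.re ⟨hs1, by linarith⟩
    have hDm : m ≤ ‖D T u s‖ := hm'.trans hD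
    have hn : ‖F T u s‖ * ‖s‖ * ‖G s‖ = ‖s - 1‖ * ‖D T u s‖ := by
      rw [← norm_mul, ← norm_mul, ← norm_mul, hid]
    have hFB := hB s hs1 (by linarith)
    have hsn : ‖s‖ ≤ 3 * (1 + |s.im|) := by
      have h4 := Complex.norm_le_abs_re_add_abs_im s
      rw [abs_of_pos (by linarith : 0 < s.re)] at h4
      linarith
    have hGp : 0 < ‖G s‖ := norm_pos_iff.2 hG
    have h1 : m ≤ B * (3 * (1 + |s.im|)) * ‖G s‖ := by
      calc m ≤ 1 * ‖D T u s‖ := by linarith
        _ ≤ ‖s - 1‖ * ‖D T u s‖ := mul_le_mul_of_nonneg_right hsub (norm_nonneg _)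
        _ = ‖F T u s‖ * ‖s‖ * ‖G s‖ := hn.symm
        _ ≤ _ := by gcongr
    rw [norm_inv]
    have h2 : ‖G s‖⁻¹ ≤ 3 * B / m * (1 + |s.im|) := by
      rw [inv_le_iff_one_le_mul₀ hGp, div_mul_eq_mul_div, div_mul_eq_mul_div, le_div_iff₀ hm0]
      linarith
    refine h2.trans (mul_le_mul_of_nonneg_right ?_ (by linarith))
    linarith [abs_nonneg Mx]
  · push Not at hi
    have hi' := abs_lt.1 hi
    have h1 := hMx s (by
      rw [Complex.mem_reProdIm]
      exact ⟨⟨hs1, hs2⟩, ⟨hi'.1.le, hi'.2.le⟩⟩)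
    have h2 := le_abs_self Mx
    have h3 : |Mx| + 1 + 3 * B / m ≤ (|Mx| + 1 + 3 * B / m) * (1 + |s.im|) := by
      have : 0 ≤ |Mx| + 1 + 3 * B / m := by positivity
      nlinarith
    linarith

end Pool.Agent.H675.HB
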