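import Pool.Agent.H675.HB.PLd
import Pool.Graph.R_seed8.Helper76.HPlanch

/-! # Project HB of helper101, piece `S_PL`, part E: Plancherel and the end of the proof -/

set_option autoImplicit false

open Complex MeasureTheory Filter Topology Set
open scoped FourierTransform

namespace Pool.Agent.H675.HB

open Pool.Agent.H101.HB

theorem lint_scale (f : ℝ → ENNReal) (hf : Measurable f) (a : ℝ) (ha : 0 < a) :
    ∫⁻ t, f t = ENNReal.ofReal a * ∫⁻ x, f (a * x) := by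
  conv_lhs => rw [← Real.smul_map_volume_mul_left ha.ne']
  rw [lintegral_smul_measure, lintegral_map hf (measurable_const_mul a), abs_of_pos ha, smul_eq_mul]

theorem exp_image : Real.exp '' univ = Ioi 0 := by rw [image_univ, Real.range_exp]

/-- the function on the logarithmic scale -/
noncomputable def hF (T u σ : ℝ) (x : ℝ) : ℂ := ((E T u (Real.exp x) * Real.exp (-(σ * x)) : ℝ) : ℂ)

theorem hF_meas (T u σ : ℝ) : Measurable (hF T u σ) := by
  refine Complex.measurable_ofReal.comp (Measurable.mul ?_ ?_)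
  · have := Measurable.comp (E_measurable₂ T u) Real.measurable_exp
    exact this
  · fun_prop

theorem hF_norm (T u σ x : ℝ) : ‖hF T u σ x‖ = |E T u (Real.exp x)| * Real.exp (-(σ * x)) := by
  unfold hF
  rw [Complex.norm_real, Real.norm_eq_abs, abs_mul, abs_of_pos (Real.exp_pos _)]

theorem hF_int {T u δ₀ : ℝ} (hT : 1 ≤ T) (hu : u ≤ 2) (h : Fin0 T u δ₀) (σ : ℝ)
    (hx : 1 / 2 + δ₀ < σ) : Integrable (hF T u σ) := by
  have h1 := abs_int hT hu h σ hx
  rw [← exp_image, integrableOn_image_iff_integrableOn_abs_deriv_smul MeasurableSet.univ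
    (fun x _ => (Real.hasDerivAt_exp x).hasDerivWithinAt) Real.exp_injective.injOn,
    integrableOn_univ] at h1
  refine Integrable.mono' h1 (hF_meas T u σ).aestronglyMeasurable (Eventually.of_forall fun x => ?_)
  rw [hF_norm, abs_of_pos (Real.exp_pos _), smul_eq_mul, ← Real.exp_mul]
  refine le_of_eq ?_
  rw [mul_left_comm, ← Real.exp_add]
  congr 2
  ring

theorem hF_sq {T u δ₀ : ℝ} (hT : 1 ≤ T) (hu : u ≤ 2) (h : Fin0 T u δ₀) (δ : ℝ)
    (hδ : δ₀ ≤ δ) : MemLp (hF T u (1 / 2 + δ)) 2 := by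
  rw [memLp_two_iff_integrable_sq_norm (hF_meas T u _).aestronglyMeasurable]
  have h1 : IntegrableOn (fun X : ℝ => E T u X ^ 2 * X ^ (-(2 * δ) - 2)) (Ioi 0) := sq_int hT hu h δ hδ
  rw [← exp_image, integrableOn_image_iff_integrableOn_abs_deriv_smul MeasurableSet.univ
    (fun x _ => (Real.hasDerivAt_exp x).hasDerivWithinAt) Real.exp_injective.injOn,
    integrableOn_univ] at h1
  refine h1.congr (Eventually.of_forall fun x => ?_)
  simp only
  rw [hF_norm, abs_of_pos (Real.exp_pos _), smul_eq_mul, ← Real.exp_mul, mul_pow, sq_abs,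
    mul_left_comm, ← Real.exp_add, ← Real.exp_nat_mul]
  congr 2
  push_cast
  ring

theorem hF_lint (T u δ : ℝ) : ∫⁻ x, ‖hF T u (1 / 2 + δ) x‖ₑ ^ 2 =
    ∫⁻ X in Ioi (0:ℝ), ENNReal.ofReal (E T u X ^ 2 * X ^ (-(2 * δ) - 2)) := by
  rw [← exp_image, lintegral_image_eq_lintegral_abs_deriv_mul MeasurableSet.univ
    (fun x _ => (Real.hasDerivAt_exp x).hasDerivWithinAt) Real.exp_injective.injOn,
    Measure.restrict_univ]
  refine lintegral_congr fun x => ?_
  rw [← ofReal_norm, ← ENNReal.ofReal_pow (norm_nonneg _), ← ENNReal.ofReal_mul (abs_nonneg _),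
    hF_norm, abs_of_pos (Real.exp_pos _), ← Real.exp_mul, mul_pow, sq_abs,
    mul_left_comm (Real.exp x), ← Real.exp_add, ← Real.exp_nat_mul]
  congr 3
  push_cast
  ring

theorem hF_fourier (T u δ ξ : ℝ) :
    𝓕 (hF T u (1 / 2 + δ)) ξ = F T u (ln δ (2 * Real.pi * ξ)) := by
  rw [Real.fourier_eq']
  unfold F
  rw [← exp_image, integral_image_eq_integral_abs_deriv_smul MeasurableSet.univ
    (fun x _ => (Real.hasDerivAt_exp x).hasDerivWithinAt) Real.exp_injective.injOn,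
    Measure.restrict_univ]
  refine integral_congr_ae (Eventually.of_forall fun x => ?_)
  simp only
  rw [abs_of_pos (Real.exp_pos _)]
  have h1 : ((Real.exp x : ℝ) : ℂ) ≠ 0 := by exact_mod_cast (Real.exp_pos x).ne'
  rw [Complex.cpow_def_of_ne_zero h1, ← Complex.ofReal_log (Real.exp_pos x).le, Real.log_exp]
  unfold hF
  rw [smul_eq_mul, Complex.real_smul]
  have e1 : cexp (((-2 * Real.pi * inner ℝ x ξ : ℝ) : ℂ) * I) *
      ((E T u (Real.exp x) * Real.exp (-((1 / 2 + δ) * x)) : ℝ) : ℂ) =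
      (E T u (Real.exp x) : ℂ) * cexp (((-2 * Real.pi * inner ℝ x ξ : ℝ) : ℂ) * I +
        ((-((1 / 2 + δ) * x) : ℝ) : ℂ)) := by
    rw [Complex.exp_add]
    simp only [Complex.ofReal_mul, Complex.ofReal_exp]
    ring
  have e2 : ((Real.exp x : ℝ) : ℂ) * ((E T u (Real.exp x) : ℂ) *
      cexp ((x : ℂ) * (-ln δ (2 * Real.pi * ξ) - 1))) =
      (E T u (Real.exp x) : ℂ) * cexp ((x : ℂ) + (x : ℂ) * (-ln δ (2 * Real.pi * ξ) - 1)) := by
    rw [Complex.exp_add, Complex.ofReal_exp]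
    ring
  rw [e1, e2]
  congr 2
  unfold ln
  simp only [RCLike.inner_apply, conj_trivial]
  push_cast
  ring

theorem ln_re (δ t : ℝ) : (ln δ t).re = 1 / 2 + δ := by
  unfold ln
  simp

theorem ln_cont (δ : ℝ) : Continuous (ln δ) := by
  unfold ln
  fun_prop

theorem planch {T u δ₀ : ℝ} (hT : 1 ≤ T) (hu : u ≤ 2) (h : Fin0 T u δ₀) (δ : ℝ)
    (hδ : δ₀ < δ) :
    ENNReal.ofReal (1 / (2 * Real.pi)) * ∫⁻ t, ENNReal.ofReal (‖F T u (ln δ t)‖ ^ 2) =
      ∫⁻ X in Ioi (0:ℝ), ENNReal.ofReal (E T u X ^ 2 * X ^ (-(2 * δ) - 2)) := by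
  have hpi := Real.pi_pos
  have hc : Continuous (fun t : ℝ => F T u (ln δ t)) := by
    rw [continuous_iff_continuousAt]
    intro t
    have h1 := (F_diff hT hu h (ln δ t) (by rw [ln_re]; linarith)).continuousAt
    exact ContinuousAt.comp (f := ln δ) h1 (ln_cont δ).continuousAt
  have hm : Measurable (fun t : ℝ => ENNReal.ofReal (‖F T u (ln δ t)‖ ^ 2)) := by
    refine ENNReal.measurable_ofReal.comp ?_
    exact (hc.norm.pow 2).measurable
  have h1 := Pool.Agent.Helper76.NormalHP.plancherel_lintegral (hF T u (1 / 2 + δ))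
    (hF_int hT hu h (1 / 2 + δ) (by linarith)) (hF_sq hT hu h δ hδ.le)
  rw [hF_lint] at h1
  rw [lint_scale _ hm (2 * Real.pi) (by positivity), ← h1, ← mul_assoc,
    ← ENNReal.ofReal_mul (by positivity)]
  have e1 : 1 / (2 * Real.pi) * (2 * Real.pi) = 1 := by field_simp
  rw [e1, ENNReal.ofReal_one, one_mul]
  refine lintegral_congr fun ξ => ?_
  rw [hF_fourier, ← ofReal_norm, ENNReal.ofReal_pow (norm_nonneg _)]

theorem F_val {T u δ₀ : ℝ} (hT : 1 ≤ T) (hu : 1 < u) (hu2 : u ≤ 2) (h0 : 0 < δ₀) (h0' : δ₀ < 1 / 2)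
    (h : Fin0 T u δ₀) (s : ℂ) (hs : 1 / 2 + δ₀ < s.re) : F T u s = iz s * D T u s / s := by
  have h1 := F_ident hT hu hu2 h0 h0' h s hs
  have h2 := G_ne hT hu hu2 h0 h0' h s hs
  have h3 : s ≠ 0 := by
    rintro rfl
    simp at hs
    linarith
  unfold iz
  field_simp
  linear_combination h1

theorem D_meas (T δ : ℝ) : Measurable (fun p : ℝ × ℝ => D T p.1 (ln δ p.2)) := by
  have h1 : Measurable (fun p : ℝ × ℝ => ((p.1 + 1 / (2 * T) : ℝ) : ℂ)) := by fun_prop
  have h2 : Measurable (fun p : ℝ × ℝ => ((p.1 - 1 / (2 * T) : ℝ) : ℂ)) := by fun_prop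
  have h3 : Measurable (fun p : ℝ × ℝ => ln δ p.2) := (ln_cont δ).measurable.comp measurable_snd
  unfold D
  exact (h1.pow h3).sub (h2.pow h3)

theorem iz_meas (δ : ℝ) : Measurable (fun t : ℝ => iz (ln δ t)) := by
  unfold iz
  have h1 : Measurable (fun t : ℝ => ln δ t) := (ln_cont δ).measurable
  have h2 : Measurable (fun t : ℝ => G (ln δ t)) := (G_diff.continuous.comp (ln_cont δ)).measurable
  exact (h1.sub_const 1).div h2

/-- **Piece `S_PL`.** -/
theorem t_PL : S_PL := by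
  intro T δ₀ δ hT h0 hδ hδ2 hfin
  have hT0 : 0 < T := by linarith
  have hpi := Real.pi_pos
  have hae := ae_fin T δ₀ hT hfin
  have hae' : ∀ᵐ u ∂(volume.restrict (Ioc (1:ℝ) 2)), 1 < u ∧ u ≤ 2 ∧ Fin0 T u δ₀ := by
    filter_upwards [hae, ae_restrict_mem measurableSet_Ioc] with u h1 h2
    exact ⟨h2.1, h2.2, fin0_of T u δ₀ hT h1⟩
  have h0' : δ₀ < 1 / 2 := by linarith
  -- one good point
  have hne : (volume.restrict (Ioc (1:ℝ) 2)) ≠ 0 := by
    rw [Ne, Measure.restrict_eq_zero, Real.volume_Ioc]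
    norm_num
  have : (ae (volume.restrict (Ioc (1:ℝ) 2))).NeBot := ae_neBot.2 hne
  obtain ⟨u₀, hu₀, hu₀2, hF₀⟩ := hae'.exists
  have hGood := good hT hu₀ hu₀2 h0 h0' hF₀ δ hδ
  refine ⟨hGood, ?_⟩
  rw [Lw_swap T δ hT]
  -- the right side
  have e1 : ∫⁻ u in Ioc (1:ℝ) 2, ∫⁻ X in Ioi (0:ℝ), ENNReal.ofReal (T * E T u X ^ 2 * X ^ (-(2 * δ) - 2)) =
      ∫⁻ u in Ioc (1:ℝ) 2, ENNReal.ofReal (1 / (2 * Real.pi)) *
        ∫⁻ t, ENNReal.ofReal (‖iz (ln δ t)‖ ^ 2 / ‖ln δ t‖ ^ 2 * (T * ‖D T u (ln δ t)‖ ^ 2)) := by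
    refine lintegral_congr_ae ?_
    filter_upwards [hae'] with u hu
    obtain ⟨hu1, hu2, hF⟩ := hu
    have h1 := planch hT hu2 hF δ hδ
    have h2 : ∀ X : ℝ, ENNReal.ofReal (T * E T u X ^ 2 * X ^ (-(2 * δ) - 2)) =
        ENNReal.ofReal T * ENNReal.ofReal (E T u X ^ 2 * X ^ (-(2 * δ) - 2)) := by
      intro X
      rw [← ENNReal.ofReal_mul hT0.le]
      congr 1
      ring
    simp_rw [h2]
    rw [lintegral_const_mul' _ _ ENNReal.ofReal_ne_top, ← h1, mul_left_comm,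
      ← lintegral_const_mul' _ _ ENNReal.ofReal_ne_top]
    congr 1
    refine lintegral_congr fun t => ?_
    rw [← ENNReal.ofReal_mul hT0.le, F_val hT hu1 hu2 h0 h0' hF (ln δ t) (by rw [ln_re]; linarith),
      norm_div, norm_mul, div_pow, mul_pow]
    congr 1
    ring
  rw [e1, lintegral_const_mul' _ _ ENNReal.ofReal_ne_top]
  refine mul_le_mul_right ?_ _
  have hmeas : Measurable (fun p : ℝ × ℝ => ENNReal.ofReal (‖iz (ln δ p.2)‖ ^ 2 / ‖ln δ p.2‖ ^ 2 *
      (T * ‖D T p.1 (ln δ p.2)‖ ^ 2))) := by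
    refine ENNReal.measurable_ofReal.comp ?_
    have h1 : Measurable (fun p : ℝ × ℝ => ‖iz (ln δ p.2)‖ ^ 2) :=
      (((iz_meas δ).comp measurable_snd).norm).pow_const 2
    have h2 : Measurable (fun p : ℝ × ℝ => ‖ln δ p.2‖ ^ 2) :=
      ((((ln_cont δ).measurable).comp measurable_snd).norm).pow_const 2
    have h3 : Measurable (fun p : ℝ × ℝ => ‖D T p.1 (ln δ p.2)‖ ^ 2) :=
      ((D_meas T δ).norm).pow_const 2
    exact (h1.div h2).mul (measurable_const.mul h3)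
  rw [lintegral_lintegral_swap hmeas.aemeasurable]
  refine lintegral_mono fun t => ?_
  rw [intervalIntegral.integral_of_le (by norm_num)]
  have e2 : ‖iz (ln δ t)‖ ^ 2 / ‖ln δ t‖ ^ 2 * (T * ∫ u in Ioc (1:ℝ) 2, ‖((u + 1 / (2 * T) : ℝ) : ℂ) ^ (ln δ t) -
      ((u - 1 / (2 * T) : ℝ) : ℂ) ^ (ln δ t)‖ ^ 2) =
      ∫ u in Ioc (1:ℝ) 2, ‖iz (ln δ t)‖ ^ 2 / ‖ln δ t‖ ^ 2 * (T * ‖D T u (ln δ t)‖ ^ 2) := by
    rw [integral_const_mul, integral_const_mul]
    rfl
  rw [e2, integral_eq_lintegral_of_nonneg_ae]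
  · exact ENNReal.ofReal_toReal_le
  · refine Eventually.of_forall fun u => ?_
    simp only [Pi.zero_apply]
    positivity
  · have h1 : Measurable (fun u : ℝ => ((u, t) : ℝ × ℝ)) := measurable_id.prodMk measurable_const
    have h2 := Measurable.comp (D_meas T δ) h1
    have h3 : Measurable (fun u : ℝ => D T u (ln δ t)) := h2
    exact (measurable_const.mul (measurable_const.mul (h3.norm.pow_const 2))).aestronglyMeasurable

end Pool.Agent.H675.HB
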